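import Pool.Agent.Helper15.HS.GoalsC

/-! # Packet HS-C NULB: the limit direction is in the nullity -/

set_option autoImplicit false

open Complex Metric Set Filter Topology MeasureTheory
open scoped ContDiff ComplexConjugate ComplexOrder Manifold Matrix

namespace Pool.Agent.Helper25.HS

open Pool.Agent.Helper95.Lin Pool.Agent.Helper16.Abund Pool.Agent.Helper92.Orb
  Pool.Agent.Helper10.SP Pool.Agent.Helper95.RK Pool.Agent.Helper57.HS Pool.Agent.Helper15.HS

variable {n : ℕ}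

/-- the curvature form -/
noncomputable def TT (R : Fin n → Fin n → Fin n → Fin n → ℂ) (a b c d : Fin n → ℂ) : ℂ :=
  ∑ i, ∑ j, ∑ k, ∑ l, R i j k l * a i * conj (b j) * c k * conj (d l)

lemma sum_swap13 (F : Fin n → Fin n → Fin n → Fin n → ℂ) :
    ∑ i, ∑ j, ∑ k, ∑ l, F i j k l = ∑ i, ∑ j, ∑ k, ∑ l, F k j i l := by
  calc ∑ i, ∑ j, ∑ k, ∑ l, F i j k l = ∑ i, ∑ k, ∑ j, ∑ l, F i j k l :=
        Finset.sum_congr rfl fun i _ => Finset.sum_comm
    _ = ∑ k, ∑ i, ∑ j, ∑ l, F i j k l := Finset.sum_comm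
    _ = ∑ i, ∑ j, ∑ k, ∑ l, F k j i l := Finset.sum_congr rfl fun i _ => Finset.sum_comm

lemma sum_swap24 (F : Fin n → Fin n → Fin n → Fin n → ℂ) :
    ∑ i, ∑ j, ∑ k, ∑ l, F i j k l = ∑ i, ∑ j, ∑ k, ∑ l, F i l k j := by
  refine Finset.sum_congr rfl fun i _ => ?_
  calc ∑ j, ∑ k, ∑ l, F i j k l = ∑ j, ∑ l, ∑ k, F i j k l :=
        Finset.sum_congr rfl fun j _ => Finset.sum_comm
    _ = ∑ l, ∑ j, ∑ k, F i j k l := Finset.sum_comm
    _ = ∑ j, ∑ k, ∑ l, F i l k j := Finset.sum_congr rfl fun j _ => Finset.sum_comm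

lemma sum_swap12_34 (F : Fin n → Fin n → Fin n → Fin n → ℂ) :
    ∑ i, ∑ j, ∑ k, ∑ l, F i j k l = ∑ i, ∑ j, ∑ k, ∑ l, F j i l k := by
  rw [Finset.sum_comm]
  refine Finset.sum_congr rfl fun i _ => Finset.sum_congr rfl fun j _ => Finset.sum_comm

variable {R : Fin n → Fin n → Fin n → Fin n → ℂ}

lemma TT_add1 (a a' b c d : Fin n → ℂ) : TT R (a + a') b c d = TT R a b c d + TT R a' b c d := by
  unfold TT
  simp only [← Finset.sum_add_distrib]
  refine Finset.sum_congr rfl fun i _ => Finset.sum_congr rfl fun j _ =>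
    Finset.sum_congr rfl fun k _ => Finset.sum_congr rfl fun l _ => ?_
  simp only [Pi.add_apply]
  ring

lemma TT_smul1 (z : ℂ) (a b c d : Fin n → ℂ) : TT R (z • a) b c d = z * TT R a b c d := by
  unfold TT
  simp only [Finset.mul_sum]
  refine Finset.sum_congr rfl fun i _ => Finset.sum_congr rfl fun j _ =>
    Finset.sum_congr rfl fun k _ => Finset.sum_congr rfl fun l _ => ?_
  simp only [Pi.smul_apply, smul_eq_mul]
  ring

lemma TT_add2 (a b b' c d : Fin n → ℂ) : TT R a (b + b') c d = TT R a b c d + TT R a b' c d := by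
  unfold TT
  simp only [← Finset.sum_add_distrib]
  refine Finset.sum_congr rfl fun i _ => Finset.sum_congr rfl fun j _ =>
    Finset.sum_congr rfl fun k _ => Finset.sum_congr rfl fun l _ => ?_
  simp only [Pi.add_apply, map_add]
  ring

lemma TT_smul2 (z : ℂ) (a b c d : Fin n → ℂ) :
    TT R a (z • b) c d = conj z * TT R a b c d := by
  unfold TT
  simp only [Finset.mul_sum]
  refine Finset.sum_congr rfl fun i _ => Finset.sum_congr rfl fun j _ =>
    Finset.sum_congr rfl fun k _ => Finset.sum_congr rfl fun l _ => ?_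
  simp only [Pi.smul_apply, smul_eq_mul, map_mul]
  ring

lemma TT_add3 (a b c c' d : Fin n → ℂ) : TT R a b (c + c') d = TT R a b c d + TT R a b c' d := by
  unfold TT
  simp only [← Finset.sum_add_distrib]
  refine Finset.sum_congr rfl fun i _ => Finset.sum_congr rfl fun j _ =>
    Finset.sum_congr rfl fun k _ => Finset.sum_congr rfl fun l _ => ?_
  simp only [Pi.add_apply]
  ring

lemma TT_smul3 (z : ℂ) (a b c d : Fin n → ℂ) : TT R a b (z • c) d = z * TT R a b c d := by
  unfold TT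
  simp only [Finset.mul_sum]
  refine Finset.sum_congr rfl fun i _ => Finset.sum_congr rfl fun j _ =>
    Finset.sum_congr rfl fun k _ => Finset.sum_congr rfl fun l _ => ?_
  simp only [Pi.smul_apply, smul_eq_mul]
  ring

lemma TT_add4 (a b c d d' : Fin n → ℂ) : TT R a b c (d + d') = TT R a b c d + TT R a b c d' := by
  unfold TT
  simp only [← Finset.sum_add_distrib]
  refine Finset.sum_congr rfl fun i _ => Finset.sum_congr rfl fun j _ =>
    Finset.sum_congr rfl fun k _ => Finset.sum_congr rfl fun l _ => ?_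
  simp only [Pi.add_apply, map_add]
  ring

lemma TT_smul4 (z : ℂ) (a b c d : Fin n → ℂ) :
    TT R a b c (z • d) = conj z * TT R a b c d := by
  unfold TT
  simp only [Finset.mul_sum]
  refine Finset.sum_congr rfl fun i _ => Finset.sum_congr rfl fun j _ =>
    Finset.sum_congr rfl fun k _ => Finset.sum_congr rfl fun l _ => ?_
  simp only [Pi.smul_apply, smul_eq_mul, map_mul]
  ring

lemma TT_swap13 (h : ∀ i j k l, R i j k l = R k j i l) (a b c d : Fin n → ℂ) :
    TT R a b c d = TT R c b a d := by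
  unfold TT
  rw [sum_swap13]
  refine Finset.sum_congr rfl fun i _ => Finset.sum_congr rfl fun j _ =>
    Finset.sum_congr rfl fun k _ => Finset.sum_congr rfl fun l _ => ?_
  rw [h k j i l]
  ring

lemma TT_swap24 (h : ∀ i j k l, R i j k l = R i l k j) (a b c d : Fin n → ℂ) :
    TT R a b c d = TT R a d c b := by
  unfold TT
  rw [sum_swap24]
  refine Finset.sum_congr rfl fun i _ => Finset.sum_congr rfl fun j _ =>
    Finset.sum_congr rfl fun k _ => Finset.sum_congr rfl fun l _ => ?_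
  rw [h i l k j]
  ring

lemma TT_conj (h : ∀ i j k l, conj (R i j k l) = R j i l k) (a : Fin n → ℂ) :
    conj (TT R a a a a) = TT R a a a a := by
  unfold TT
  rw [map_sum]
  simp only [map_sum, map_mul, Complex.conj_conj, h]
  rw [sum_swap12_34]
  refine Finset.sum_congr rfl fun i _ => Finset.sum_congr rfl fun j _ =>
    Finset.sum_congr rfl fun k _ => Finset.sum_congr rfl fun l _ => ?_
  ring

lemma TT_expand (a b : Fin n → ℂ) (ζ : ℂ) :
    TT R (b + ζ • a) (b + ζ • a) (b + ζ • a) (b + ζ • a) =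
      TT R b b b b + ζ * (TT R a b b b + TT R b b a b) +
      conj ζ * (TT R b a b b + TT R b b b a) + ζ ^ 2 * TT R a b a b +
      conj ζ ^ 2 * TT R b a b a + ζ * conj ζ * (TT R a a b b + TT R a b b a + TT R b a a b +
        TT R b b a a) + ζ ^ 2 * conj ζ * (TT R a a a b + TT R a b a a) +
      ζ * conj ζ ^ 2 * (TT R a a b a + TT R b a a a) + ζ ^ 2 * conj ζ ^ 2 * TT R a a a a := by
  simp only [TT_add1, TT_add2, TT_add3, TT_add4, TT_smul1, TT_smul2, TT_smul3, TT_smul4]
  ring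

/-- polarization -/
lemma polar (h13 : ∀ i j k l, R i j k l = R k j i l) (h24 : ∀ i j k l, R i j k l = R i l k j)
    (F : Submodule ℂ (Fin n → ℂ)) (hq : ∀ f ∈ F, TT R f f f f = 0) :
    ∀ a ∈ F, ∀ b ∈ F, ∀ c ∈ F, ∀ d ∈ F, TT R a b c d = 0 := by
  have s1 : ∀ a ∈ F, ∀ b ∈ F, TT R a b a b + TT R b a b a = 0 := by
    intro a ha b hb
    have e1 := TT_expand (R := R) a b 1
    have e2 := TT_expand (R := R) a b (-1)
    have e3 := TT_expand (R := R) a b I
    have e4 := TT_expand (R := R) a b (-I)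
    rw [hq _ (F.add_mem hb (F.smul_mem _ ha))] at e1 e2 e3 e4
    simp only [map_one, map_neg, Complex.conj_I] at e1 e2 e3 e4
    linear_combination (-1 / 4 : ℂ) * (e1 + e2 - e3 - e4) +
      (1 / 4 : ℂ) * (2 * TT R a b a b + 2 * TT R b a b a - 2 * (TT R a a b b + TT R a b b a +
        TT R b a a b + TT R b b a a) + 2 * TT R a a a a * (I ^ 2 - 1)) * Complex.I_sq
  have s2 : ∀ a ∈ F, ∀ b ∈ F, TT R a b a b = 0 := by
    intro a ha b hb
    have e1 := s1 a ha b hb
    have e2 := s1 ((1 + I) • a) (F.smul_mem _ ha) b hb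
    simp only [TT_smul1, TT_smul2, TT_smul3, TT_smul4, map_add, map_one, Complex.conj_I] at e2
    have e3 : (2 * I) * (TT R a b a b - TT R b a b a) = 0 := by
      linear_combination e2 - (TT R a b a b + TT R b a b a) * Complex.I_sq
    have e4 : TT R a b a b - TT R b a b a = 0 := by
      rcases mul_eq_zero.1 e3 with h | h
      · exact absurd h (by simp)
      · exact h
    linear_combination (1 / 2 : ℂ) * (e1 + e4)
  have s3 : ∀ a ∈ F, ∀ b ∈ F, ∀ c ∈ F, TT R a b c b = 0 := by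
    intro a ha b hb c hc
    have e1 := s2 (a + c) (F.add_mem ha hc) b hb
    simp only [TT_add1, TT_add3] at e1
    have e2 := s2 a ha b hb
    have e3 := s2 c hc b hb
    have e4 := TT_swap13 h13 c b a b
    linear_combination (1 / 2 : ℂ) * (e1 - e2 - e3 - e4)
  intro a ha b hb c hc d hd
  have e1 := s3 a ha (b + d) (F.add_mem hb hd) c hc
  simp only [TT_add2, TT_add4] at e1
  have e2 := s3 a ha b hb c hc
  have e3 := s3 a ha d hd c hc
  have e4 := TT_swap24 h24 a d c b
  linear_combination (1 / 2 : ℂ) * (e1 - e2 - e3 - e4)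

/-- a rank one perturbation of the identity -/
lemma psd_one (g : Fin n → ℂ) : ∃ c : ℝ, 0 < c ∧
    ((1 : Matrix (Fin n) (Fin n) ℂ) - Matrix.vecMulVec (fun i => conj ((c : ℂ) * g i))
      (fun i => (c : ℂ) * g i)).PosSemidef := by
  set S : ℝ := ∑ i, ‖g i‖ ^ 2 with hS
  have hS0 : 0 ≤ S := Finset.sum_nonneg fun i _ => sq_nonneg _
  refine ⟨1 / (1 + S), by positivity, ?_⟩
  set c : ℝ := 1 / (1 + S) with hc
  have hc1 : c ^ 2 * S ≤ 1 := by
    rw [hc, div_pow, one_pow, div_mul_eq_mul_div, one_mul, div_le_one (by positivity)]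
    nlinarith
  refine Matrix.PosSemidef.of_dotProduct_mulVec_nonneg ?_ fun w => ?_
  · refine (Matrix.isHermitian_one).sub ?_
    ext i j
    simp only [Matrix.conjTranspose_apply, Matrix.vecMulVec_apply]
    simp
    ring
  · have h1 : star w ⬝ᵥ ((1 : Matrix (Fin n) (Fin n) ℂ) - Matrix.vecMulVec
        (fun i => conj ((c : ℂ) * g i)) (fun i => (c : ℂ) * g i)) *ᵥ w =
        (((∑ i, ‖w i‖ ^ 2) - c ^ 2 * ‖∑ i, g i * w i‖ ^ 2 : ℝ) : ℂ) := by
      rw [Matrix.sub_mulVec, Matrix.one_mulVec, dotProduct_sub, Matrix.vecMulVec_mulVec]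
      have e1 : star w ⬝ᵥ w = ((∑ i, ‖w i‖ ^ 2 : ℝ) : ℂ) := by
        simp only [dotProduct, Pi.star_apply, Complex.ofReal_sum]
        refine Finset.sum_congr rfl fun i _ => ?_
        rw [Complex.star_def, mul_comm, Complex.mul_conj, Complex.normSq_eq_norm_sq]
      have e2 : (fun i => (c : ℂ) * g i) ⬝ᵥ w = (c : ℂ) * ∑ i, g i * w i := by
        simp only [dotProduct, Finset.mul_sum]
        exact Finset.sum_congr rfl fun i _ => by ring
      have e3 : star w ⬝ᵥ (fun i => conj ((c : ℂ) * g i)) = (c : ℂ) * conj (∑ i, g i * w i) := by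
        simp only [dotProduct, Pi.star_apply, map_sum, map_mul, Finset.mul_sum, Complex.conj_ofReal]
        refine Finset.sum_congr rfl fun i _ => ?_
        rw [Complex.star_def]
        ring
      rw [e1]
      have e4 : star w ⬝ᵥ (MulOpposite.op ((fun i => (c : ℂ) * g i) ⬝ᵥ w) •
          (fun i => conj ((c : ℂ) * g i))) =
          ((fun i => (c : ℂ) * g i) ⬝ᵥ w) * (star w ⬝ᵥ (fun i => conj ((c : ℂ) * g i))) := by
        simp only [dotProduct_smul, MulOpposite.smul_eq_mul_unop, MulOpposite.unop_op]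
        ring
      rw [e4, e2, e3]
      push_cast
      have e5 : (∑ i, g i * w i) * conj (∑ i, g i * w i) = ((‖∑ i, g i * w i‖ ^ 2 : ℝ) : ℂ) := by
        rw [Complex.mul_conj, Complex.normSq_eq_norm_sq]
      push_cast at e5
      linear_combination (-(c : ℂ) ^ 2) * e5
    rw [h1]
    refine Complex.zero_le_real.2 ?_
    have h2 : ‖∑ i, g i * w i‖ ^ 2 ≤ S * ∑ i, ‖w i‖ ^ 2 := by
      have h3 : ‖∑ i, g i * w i‖ ≤ ∑ i, ‖g i‖ * ‖w i‖ :=
        (norm_sum_le _ _).trans (le_of_eq (Finset.sum_congr rfl fun i _ => norm_mul _ _))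
      exact (pow_le_pow_left₀ (norm_nonneg _) h3 2).trans
        (Finset.sum_mul_sq_le_sq_mul_sq _ _ _)
    have h4 : 0 ≤ ∑ i, ‖w i‖ ^ 2 := Finset.sum_nonneg fun i _ => sq_nonneg _
    have h5 : c ^ 2 * ‖∑ i, g i * w i‖ ^ 2 ≤ c ^ 2 * (S * ∑ i, ‖w i‖ ^ 2) :=
      mul_le_mul_of_nonneg_left h2 (sq_nonneg _)
    have h6 : c ^ 2 * (S * ∑ i, ‖w i‖ ^ 2) ≤ 1 * ∑ i, ‖w i‖ ^ 2 := by
      rw [← mul_assoc]
      exact mul_le_mul_of_nonneg_right hc1 h4
    linarith

open scoped MatrixOrder in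
lemma exists_factor {G : Matrix (Fin n) (Fin n) ℂ} (hG : G.PosDef) :
    ∃ B : Matrix (Fin n) (Fin n) ℂ, G = Bᴴ * B := by
  obtain ⟨B, hB⟩ := CStarAlgebra.nonneg_iff_eq_star_mul_self.mp hG.posSemidef.nonneg
  exact ⟨B, hB⟩

/-- small rank one perturbations -/
lemma psd_small {G P : Matrix (Fin n) (Fin n) ℂ} (hG : G.PosDef) (f : Fin n → ℂ)
    (hf : f ᵥ* P = f) : ∃ c : ℝ, 0 < c ∧
      (Pᴴ * G * P - Matrix.vecMulVec (fun i => conj (((c : ℂ) • f) i)) ((c : ℂ) • f)).PosSemidef := by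
  obtain ⟨B, hB⟩ := exists_factor hG
  have hdet : IsUnit B.det := by
    rw [isUnit_iff_ne_zero]
    intro h0
    have h1 := hG.det_pos.ne'
    rw [hB, Matrix.det_mul, h0, mul_zero] at h1
    exact h1 rfl
  obtain ⟨c, hc, hpsd⟩ := psd_one (f ᵥ* B⁻¹)
  refine ⟨c, hc, ?_⟩
  have h1 := hpsd.conjTranspose_mul_mul_same (B * P)
  have h2 : (f ᵥ* B⁻¹) ᵥ* (B * P) = f := by
    rw [Matrix.vecMul_vecMul, ← Matrix.mul_assoc, Matrix.nonsing_inv_mul B hdet, Matrix.one_mul, hf]
  have h3 : (fun i => (c : ℂ) * (f ᵥ* B⁻¹) i) ᵥ* (B * P) = (c : ℂ) • f := by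
    have : (fun i => (c : ℂ) * (f ᵥ* B⁻¹) i) = (c : ℂ) • (f ᵥ* B⁻¹) := rfl
    rw [this, Matrix.smul_vecMul, h2]
  have h4 : (B * P)ᴴ *ᵥ (fun i => conj ((c : ℂ) * (f ᵥ* B⁻¹) i)) =
      fun i => conj (((c : ℂ) • f) i) := by
    have e1 : (fun i => conj ((c : ℂ) * (f ᵥ* B⁻¹) i)) =
        star (fun i => (c : ℂ) * (f ᵥ* B⁻¹) i) := rfl
    rw [e1, Matrix.mulVec_conjTranspose, star_star, h3]
    rfl
  have h5 : (B * P)ᴴ * ((1 : Matrix (Fin n) (Fin n) ℂ) - Matrix.vecMulVec
      (fun i => conj ((c : ℂ) * (f ᵥ* B⁻¹) i)) (fun i => (c : ℂ) * (f ᵥ* B⁻¹) i)) * (B * P) =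
      Pᴴ * G * P - Matrix.vecMulVec (fun i => conj (((c : ℂ) • f) i)) ((c : ℂ) • f) := by
    rw [Matrix.mul_sub, Matrix.sub_mul, Matrix.mul_one, Matrix.mul_vecMulVec, Matrix.vecMulVec_mul,
      h3, h4, hB, Matrix.conjTranspose_mul]
    simp only [Matrix.mul_assoc]
  rw [h5] at h1
  exact h1

/-- Packet NULB. -/
theorem nulb (hCSY : S_CSY) (hSGN : S_SGN) (hPAR : S_PARP) : S_NULB := by
  intro n W hW H P hpos hCHF hN hP hPP hPH hcr x hx i j l m
  have hs : ∀ i j, ContDiffOn ℝ ∞ (fun x => H x i j) W := hCHF.smooth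
  obtain ⟨c1, c2, c3⟩ := hCSY W hW H hpos hs x hx
  obtain ⟨c3, -⟩ := c3 hCHF
  have h13 : ∀ i j k l, crv H x i j k l = crv H x k j i l := fun i j k l => (c3 i j k l).1
  have h24 : ∀ i j k l, crv H x i j k l = crv H x i l k j := fun i j k l => (c3 i j k l).2
  have hHx := hpos x hx
  have hHu : IsUnit (H x).det := isUnit_iff_ne_zero.2 hHx.det_pos.ne'
  have hG : ((H x)⁻¹).PosDef := hHx.inv
  -- `H⁻¹ P = Pᴴ H⁻¹ P`
  have hK : (H x)⁻¹ * P x = (P x)ᴴ * (H x)⁻¹ * P x := by
    have e1 : (H x)⁻¹ * P x = (P x)ᴴ * (H x)⁻¹ := by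
      have e2 : (H x)⁻¹ * (P x * H x) * (H x)⁻¹ = (H x)⁻¹ * (H x * (P x)ᴴ) * (H x)⁻¹ :=
        congrArg (fun M => (H x)⁻¹ * M * (H x)⁻¹) (hPH x hx)
      rw [Matrix.mul_assoc, Matrix.mul_assoc, Matrix.mul_nonsing_inv _ hHu, Matrix.mul_one,
        ← Matrix.mul_assoc ((H x)⁻¹) (H x), Matrix.nonsing_inv_mul _ hHu, Matrix.one_mul] at e2
      exact e2
    calc (H x)⁻¹ * P x = (H x)⁻¹ * (P x * P x) := by rw [hPP x hx]
      _ = (H x)⁻¹ * P x * P x := by rw [Matrix.mul_assoc]
      _ = _ := by rw [e1]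
  -- the subspace
  let F : Submodule ℂ (Fin n → ℂ) :=
    { carrier := {f | f ᵥ* P x = f}
      add_mem' := fun {a b} ha hb => by
        show (a + b) ᵥ* P x = a + b
        rw [Matrix.add_vecMul, ha, hb]
      zero_mem' := Matrix.zero_vecMul _
      smul_mem' := fun z a ha => by
        show (z • a) ᵥ* P x = z • a
        rw [Matrix.smul_vecMul, ha] }
  have hq : ∀ f ∈ F, TT (crv H x) f f f f = 0 := by
    intro f hf
    obtain ⟨c, hc, hpsd⟩ := psd_small hG f hf
    rw [← hK] at hpsd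
    have e1 := (hSGN W hW H hpos hCHF hN).1 x hx ((H x)⁻¹ * P x) ((c : ℂ) • f) hpsd
    rw [hcr x hx, mul_zero] at e1
    have e2 : 0 ≤ (TT (crv H x) ((c : ℂ) • f) ((c : ℂ) • f) ((c : ℂ) • f) ((c : ℂ) • f)).re := e1
    rw [TT_smul1, TT_smul2, TT_smul3, TT_smul4, Complex.conj_ofReal] at e2
    have e3 : (c : ℂ) * ((c : ℂ) * ((c : ℂ) * ((c : ℂ) * TT (crv H x) f f f f))) =
        ((c ^ 4 : ℝ) : ℂ) * TT (crv H x) f f f f := by push_cast; ring
    rw [e3, Complex.re_ofReal_mul] at e2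
    have e4 : (TT (crv H x) f f f f).re ≤ 0 := hN x hx f
    have e5 : 0 ≤ (TT (crv H x) f f f f).re := by
      have : 0 < c ^ 4 := by positivity
      exact nonneg_of_mul_nonneg_right e2 this
    have e6 := TT_conj (R := crv H x) c2 f
    have e7 : (TT (crv H x) f f f f).im = 0 := Complex.conj_eq_iff_im.1 e6
    exact Complex.ext (le_antisymm e4 e5) e7
  have hT := polar h13 h24 F hq
  -- exchange of the projector
  have hex : ∀ i j l m, ∑ p, P x i p * crv H x p j l m = ∑ q, crv H x i q l m * conj (P x j q) := by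
    intro i j l m
    have e1 := (hPAR W hW H P hpos hs hP hPH x hx l).2.2 m
    have e2 : ∀ p q, crv H x p q l m = - (cdbM m (Gam H l) x * H x) p q := fun p q => c1 p q l m
    have e3 : P x * (cdbM m (Gam H l) x * H x) = (cdbM m (Gam H l) x * H x) * (P x)ᴴ := by
      rw [← Matrix.mul_assoc, ← e1, Matrix.mul_assoc, hPH x hx, Matrix.mul_assoc]
    have e4 := congrFun (congrFun e3 i) j
    rw [Matrix.mul_apply, Matrix.mul_apply] at e4
    simp only [e2, mul_neg, neg_mul, Finset.sum_neg_distrib]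
    rw [e4]
    rfl
  have hex1 : ∀ a b c d : Fin n → ℂ, TT (crv H x) (a ᵥ* P x) b c d = TT (crv H x) a (b ᵥ* P x) c d := by
    intro a b c d
    have e1 : TT (crv H x) (a ᵥ* P x) b c d =
        ∑ i, ∑ j, ∑ k, ∑ l, (∑ p, P x i p * crv H x p j k l) * a i * conj (b j) * c k * conj (d l) := by
      unfold TT
      simp only [Matrix.vecMul, dotProduct, Finset.sum_mul, Finset.mul_sum]
      rw [show (∑ p, ∑ j, ∑ k, ∑ l, ∑ i, crv H x p j k l * (a i * P x i p) * conj (b j) * c k *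
        conj (d l)) = ∑ p, ∑ i, ∑ j, ∑ k, ∑ l, crv H x p j k l * (a i * P x i p) * conj (b j) * c k *
        conj (d l) from ?_]
      · rw [Finset.sum_comm]
        refine Finset.sum_congr rfl fun i _ => ?_
        rw [Finset.sum_comm]
        refine Finset.sum_congr rfl fun j _ => ?_
        rw [Finset.sum_comm]
        refine Finset.sum_congr rfl fun k _ => ?_
        rw [Finset.sum_comm]
        refine Finset.sum_congr rfl fun l _ => Finset.sum_congr rfl fun p _ => ?_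
        ring
      · refine Finset.sum_congr rfl fun p _ => ?_
        rw [Finset.sum_comm]
        rw [Finset.sum_comm]
        symm
        rw [Finset.sum_comm]
        refine Finset.sum_congr rfl fun j _ => ?_
        rw [Finset.sum_comm]
        refine Finset.sum_congr rfl fun k _ => ?_
        rw [Finset.sum_comm]
    have e2 : TT (crv H x) a (b ᵥ* P x) c d =
        ∑ i, ∑ j, ∑ k, ∑ l, (∑ q, crv H x i q k l * conj (P x j q)) * a i * conj (b j) * c k *
          conj (d l) := by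
      unfold TT
      refine Finset.sum_congr rfl fun i _ => ?_
      simp only [Matrix.vecMul, dotProduct, map_sum, map_mul, Finset.sum_mul, Finset.mul_sum]
      rw [show (∑ q, ∑ k, ∑ l, ∑ j, crv H x i q k l * a i * (conj (b j) * conj (P x j q)) * c k *
        conj (d l)) = ∑ q, ∑ j, ∑ k, ∑ l, crv H x i q k l * a i * (conj (b j) * conj (P x j q)) *
        c k * conj (d l) from ?_]
      · rw [Finset.sum_comm]
        refine Finset.sum_congr rfl fun j _ => ?_
        rw [Finset.sum_comm]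
        refine Finset.sum_congr rfl fun k _ => ?_
        rw [Finset.sum_comm]
        refine Finset.sum_congr rfl fun l _ => Finset.sum_congr rfl fun q _ => ?_
        ring
      · refine Finset.sum_congr rfl fun q _ => ?_
        symm
        rw [Finset.sum_comm]
        refine Finset.sum_congr rfl fun k _ => ?_
        rw [Finset.sum_comm]
    rw [e1, e2]
    simp only [hex]
  have hpp : ∀ a : Fin n → ℂ, (a ᵥ* P x) ᵥ* P x = a ᵥ* P x := fun a => by
    rw [Matrix.vecMul_vecMul, hPP x hx]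
  have hF : ∀ a : Fin n → ℂ, a ᵥ* P x ∈ F := hpp
  have hz : ∀ a b c d : Fin n → ℂ, TT (crv H x) (a ᵥ* P x) b c d = 0 := by
    intro a b c d
    have f1 : ∀ a b c d : Fin n → ℂ, TT (crv H x) (a ᵥ* P x) b c d =
        TT (crv H x) (a ᵥ* P x) (b ᵥ* P x) c d := fun a b c d => by
      rw [← hpp a, hex1 (a ᵥ* P x) b c d, hpp a]
    have f2 : ∀ a b c d : Fin n → ℂ, TT (crv H x) (a ᵥ* P x) b c d =
        TT (crv H x) (a ᵥ* P x) b (c ᵥ* P x) d := fun a b c d => by
      rw [← hpp a, hex1 (a ᵥ* P x) b c d, TT_swap13 h13, ← hex1, TT_swap13 h13, hpp a]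
    have f3 : ∀ a b c d : Fin n → ℂ, TT (crv H x) (a ᵥ* P x) b c d =
        TT (crv H x) (a ᵥ* P x) b c (d ᵥ* P x) := fun a b c d => by
      rw [TT_swap24 h24, f1, TT_swap24 h24]
    rw [f1, f2, f3]
    exact hT _ (hF a) _ (hF b) _ (hF c) _ (hF d)
  have hfin := hz (Pi.single i 1) (Pi.single j 1) (Pi.single l 1) (Pi.single m 1)
  rw [← hfin]
  unfold TT
  refine Finset.sum_congr rfl fun p _ => ?_
  rw [Finset.sum_eq_single j, Finset.sum_eq_single l, Finset.sum_eq_single m]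
  · simp only [Pi.single_eq_same, map_one, mul_one, Matrix.single_vecMul, Matrix.row_apply, one_smul]
    ring
  · intro b _ hb
    rw [Pi.single_eq_of_ne hb, map_zero, mul_zero]
  · intro h; exact absurd (Finset.mem_univ m) h
  · intro b _ hb
    rw [Pi.single_eq_of_ne hb]
    simp
  · intro h; exact absurd (Finset.mem_univ l) h
  · intro b _ hb
    rw [Pi.single_eq_of_ne hb]
    simp
  · intro h; exact absurd (Finset.mem_univ j) h

end Pool.Agent.Helper25.HS
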